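import Pool.Agent.Helper89.A8.Stmts

/-!
# Block A8-M06: Hecke eigenvectors of the types `{1}`, `{2}`, `{3}` generate the three small modules

Elements of `GL_4(2)` are written as words in the six generators `xr i`, `g3 i`; words are compared
through their row vectors, encoded as natural numbers (row operations are `xor`).
-/

set_option autoImplicit false

namespace Pool.Agent.A8

open Matrix

namespace M06

/-- the six generators of `GL_4(2)` -/
def gen : Fin 6 → Gam := ![gt, x1, gg, gr, gq, gs]

/-- words in the generators -/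
def word (l : List (Fin 6)) : Gam := (l.map gen).prod

theorem word_nil : word [] = 1 := rfl
theorem word_cons (i : Fin 6) (l : List (Fin 6)) : word (i :: l) = gen i * word l := by
  simp [word]
theorem word_append (l l' : List (Fin 6)) : word (l ++ l') = word l * word l' := by
  simp [word]
theorem word_singleton (i : Fin 6) : word [i] = gen i := by simp [word]

/-- four rows, as natural numbers -/
abbrev R4 : Type := ℕ × ℕ × ℕ × ℕ

/-- multiplication by a generator from the left, as a row operation -/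
def op (i : Fin 6) (m : R4) : R4 :=
  match i with
  | 0 => (m.1 ^^^ m.2.1, m.2.1, m.2.2.1, m.2.2.2)
  | 1 => (m.1, m.2.1 ^^^ m.2.2.1, m.2.2.1, m.2.2.2)
  | 2 => (m.1, m.2.1, m.2.2.1 ^^^ m.2.2.2, m.2.2.2)
  | 3 => (m.2.1, m.1 ^^^ m.2.1, m.2.2.1, m.2.2.2)
  | 4 => (m.1, m.2.2.1, m.2.1 ^^^ m.2.2.1, m.2.2.2)
  | 5 => (m.1, m.2.1, m.2.2.2, m.2.2.1 ^^^ m.2.2.2)

/-- a bit as an element of `ZMod 2` -/
def bit (n j : ℕ) : ZMod 2 := if n.testBit j then 1 else 0

theorem bit_xor (a b j : ℕ) : bit (a ^^^ b) j = bit a j + bit b j := by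
  unfold bit
  rw [Nat.testBit_xor]
  rcases a.testBit j <;> rcases b.testBit j <;> decide

/-- the matrix of four rows -/
def toM (m : R4) : M4 :=
  !![bit m.1 0, bit m.1 1, bit m.1 2, bit m.1 3;
     bit m.2.1 0, bit m.2.1 1, bit m.2.1 2, bit m.2.1 3;
     bit m.2.2.1 0, bit m.2.2.1 1, bit m.2.2.1 2, bit m.2.2.1 3;
     bit m.2.2.2 0, bit m.2.2.2 1, bit m.2.2.2 2, bit m.2.2.2 3]

theorem gen_mul (i : Fin 6) (m : R4) : (gen i).1 * toM m = toM (op i m) := by
  obtain ⟨a, b, c, d⟩ := m
  fin_cases i <;> ext i j <;> fin_cases i <;> fin_cases j <;>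
    simp [gen, op, toM, gt, x1, gg, gr, gq, gs, mkG, Matrix.mul_apply, Fin.sum_univ_four, bit_xor]

/-- the rows of a word -/
def wm (l : List (Fin 6)) : R4 := l.foldr op (1, 2, 4, 8)

theorem toM_one : toM (1, 2, 4, 8) = 1 := by
  decide +kernel

theorem word_val (l : List (Fin 6)) : (word l).1 = toM (wm l) := by
  induction l with
  | nil => exact toM_one.symm
  | cons i l ih =>
    rw [word_cons, Units.val_mul, ih, gen_mul]
    rfl

theorem word_eq {l l' : List (Fin 6)} (h : wm l = wm l') : word l = word l' := by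
  apply Units.ext
  rw [word_val, word_val, h]

/-! ### generation -/

/-- words for the twelve transvections -/
def tw : Fin 4 → Fin 4 → List (Fin 6) :=
  ![![[], [0], [1, 0, 1, 0], [5, 5, 1, 0, 1, 5, 0]],
    ![[0, 3], [], [1], [2, 1, 2, 1]],
    ![[3, 1, 4, 3, 3], [1, 4], [], [2]],
    ![[3, 4, 2, 5, 4, 4, 3, 3], [4, 2, 5, 4, 4], [2, 5], []]]

theorem tw_val : ∀ i j : Fin 4, i ≠ j → (1 + Matrix.single i j (1 : ZMod 2) : M4) = toM (wm (tw i j)) := by
  decide +kernel

theorem gen_surj (g : Gam) : ∃ l, word l = g := by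
  have key : ∃ l, (word l).1 = g.1 := by
    have hdet : Matrix.det g.1 ≠ 0 := by
      have := g.isUnit
      rw [Matrix.isUnit_iff_isUnit_det] at this
      exact this.ne_zero
    refine Matrix.diagonal_transvection_induction_of_det_ne_zero
      (fun A : M4 => ∃ l, (word l).1 = A) g.1 hdet ?_ ?_ ?_
    · intro D hD
      refine ⟨[], ?_⟩
      have hD' : ∀ i, D i = 1 := by
        intro i
        rw [Matrix.det_diagonal, Finset.prod_ne_zero_iff] at hD
        have h := hD i (Finset.mem_univ i)
        revert h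
        generalize D i = a
        revert a
        decide
      have : D = fun _ => 1 := funext hD'
      rw [this]
      exact (Matrix.diagonal_one (n := Fin 4) (α := ZMod 2)).symm
    · rintro ⟨i, j, hij, c⟩
      have hc : c = 0 ∨ c = 1 := by revert c; decide
      rcases hc with rfl | rfl
      · refine ⟨[], ?_⟩
        change (1 : M4) = Matrix.transvection i j 0
        rw [Matrix.transvection_zero]
      · refine ⟨tw i j, ?_⟩
        rw [word_val, ← tw_val i j hij]
        rfl
    · rintro A B - - ⟨l, hl⟩ ⟨l', hl'⟩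
      exact ⟨l ++ l', by rw [word_append, Units.val_mul, hl, hl']⟩
  obtain ⟨l, hl⟩ := key
  exact ⟨l, Units.ext hl⟩

/-! ### certificates -/

/-- a certificate for one generator and one basis vector: the image is the basis vector `k`
(and then `g c_j = c_k s`), or the sum of the basis vectors `k`, `l` (and then `u = c_k s1`,
`u h = c_l s2`, `u h^2 = g c_j s3`); the words `s..` consist of generators fixing the vector -/
inductive Cert (n : ℕ) : Type
  | S (k : Fin n) (s : List (Fin 6)) : Cert n
  | D (k l : Fin n) (u s1 s2 s3 : List (Fin 6)) : Cert n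

/-- the check of a certificate -/
def Cert.ok {n : ℕ} (h : Fin 6) (st : Fin 6 → Bool) (c : Fin n → List (Fin 6)) (g : Fin 6)
    (j : Fin n) : Cert n → Bool
  | .S k s => s.all st && decide (wm (g :: c j) = wm (c k ++ s))
  | .D k l u s1 s2 s3 => s1.all st && (s2.all st && (s3.all st &&
      (decide (wm u = wm (c k ++ s1)) && (decide (wm (u ++ [h]) = wm (c l ++ s2)) &&
        decide (wm (u ++ [h, h]) = wm (g :: (c j ++ s3)))))))

/-- the predicted image, as a list of basis vectors -/
def Cert.img {n : ℕ} : Cert n → List (Fin n)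
  | .S k _ => [k]
  | .D k l _ _ _ _ => [k, l]

section
variable {X : Type} [AddCommGroup X] [Module RG X]

theorem fixw {w : X} {st : Fin 6 → Bool} (hst : ∀ i, st i = true → act (gen i) w = w)
    (s : List (Fin 6)) (hs : s.all st = true) : act (word s) w = w := by
  induction s with
  | nil => rw [word_nil, act_one]
  | cons i s ih =>
    rw [List.all_cons, Bool.and_eq_true] at hs
    rw [word_cons, act_mul, ih hs.2, hst i hs.1]

theorem step {n : ℕ} {w : X} {st : Fin 6 → Bool} (hst : ∀ i, st i = true → act (gen i) w = w)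
    {h : Fin 6} (hrel : w + act (gen h) w + act (gen h ^ 2) w = 0) (c : Fin n → List (Fin 6))
    (g : Fin 6) (j : Fin n) (t : Cert n) (ht : t.ok h st c g j = true) :
    act (gen g) (act (word (c j)) w) = ((t.img).map (fun k => act (word (c k)) w)).sum := by
  cases t with
  | S k s =>
    rw [Cert.ok, Bool.and_eq_true, decide_eq_true_iff] at ht
    have e := word_eq ht.2
    rw [word_cons, word_append] at e
    rw [← act_mul, e, act_mul, fixw hst s ht.1]
    simp [Cert.img]
  | D k l u s1 s2 s3 =>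
    simp only [Cert.ok, Bool.and_eq_true, decide_eq_true_iff] at ht
    obtain ⟨h1, h2, h3, e1, e2, e3⟩ := ht
    have e1 := word_eq e1
    have e2 := word_eq e2
    have e3 := word_eq e3
    rw [word_append] at e1
    rw [word_append, word_append, word_singleton] at e2
    rw [word_append, word_cons g, word_append, word_cons h, word_singleton] at e3
    have a1 : act (word u) w = act (word (c k)) w := by
      rw [e1, act_mul, fixw hst s1 h1]
    have a2 : act (word u) (act (gen h) w) = act (word (c l)) w := by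
      rw [← act_mul, e2, act_mul, fixw hst s2 h2]
    have a3 : act (word u) (act (gen h ^ 2) w) = act (gen g) (act (word (c j)) w) := by
      rw [← act_mul, pow_two, e3, ← mul_assoc, act_mul, fixw hst s3 h3, act_mul]
    have hr := congrArg (act (word u)) hrel
    rw [act_add, act_add, act_zero, a1, a2, a3] at hr
    have hs := eq_neg_of_add_eq_zero_right hr
    rw [neg_eq] at hs
    rw [hs]
    simp [Cert.img]

/-- a map given on the basis is linear if all the certificates are correct -/
theorem build {n : ℕ} {M : Type} [AddCommGroup M] [Module RG M] (e : (Fin n → ZMod 2) ≃+ M)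
    {w : X} {st : Fin 6 → Bool} (hst : ∀ i, st i = true → act (gen i) w = w)
    {h : Fin 6} (hrel : w + act (gen h) w + act (gen h ^ 2) w = 0) (c : Fin n → List (Fin 6))
    (T : Fin 6 → Fin n → Cert n) (hT : ∀ g j, (T g j).ok h st c g j = true)
    (himg : ∀ g j, act (gen g) (e (Pi.single j 1)) =
      (((T g j).img).map (fun k => e (Pi.single k 1))).sum) :
    ∃ f : M →ₗ[RG] X, ∀ j, f (e (Pi.single j 1)) = act (word (c j)) w := by
  -- the additive map
  have hadd : ∀ (x : X) (a b : ZMod 2), (if a + b = 1 then x else 0) =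
      (if a = 1 then x else 0) + (if b = 1 then x else 0) := by
    intro x a b
    have ha : a = 0 ∨ a = 1 := by revert a; decide
    have hb : b = 0 ∨ b = 1 := by revert b; decide
    have h11 : (1 : ZMod 2) + 1 = 0 := by decide
    rcases ha with rfl | rfl <;> rcases hb with rfl | rfl <;> simp [h11, add_self]
  let F0 : (Fin n → ZMod 2) →+ X :=
    { toFun := fun v => ∑ j, if v j = 1 then act (word (c j)) w else 0
      map_zero' := by simp
      map_add' := by
        intro v v'
        rw [← Finset.sum_add_distrib]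
        exact Finset.sum_congr rfl fun j _ => hadd _ _ _ }
  have hF0 : ∀ j, F0 (Pi.single j 1) = act (word (c j)) w := by
    intro j
    change (∑ i, if (Pi.single j (1 : ZMod 2) : Fin n → ZMod 2) i = 1 then
      act (word (c i)) w else 0) = _
    rw [Finset.sum_eq_single j]
    · simp
    · intro i _ hij
      rw [Pi.single_eq_of_ne hij, if_neg (by decide)]
    · intro hj
      exact absurd (Finset.mem_univ j) hj
  let F : M →+ X := F0.comp e.symm.toAddMonoidHom
  have hF : ∀ j, F (e (Pi.single j 1)) = act (word (c j)) w := by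
    intro j
    change F0 (e.symm (e (Pi.single j 1))) = _
    rw [e.symm_apply_apply, hF0]
  -- equivariance for the generators, on the basis
  have h1 : ∀ g j, F (act (gen g) (e (Pi.single j 1))) = act (gen g) (F (e (Pi.single j 1))) := by
    intro g j
    rw [himg, hF, step hst hrel c g j (T g j) (hT g j), map_list_sum, List.map_map]
    congr 1
    apply List.map_congr_left
    intro k _
    exact hF k
  -- on everything
  have h2 : ∀ g v, F (act (gen g) v) = act (gen g) (F v) := by
    intro g v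
    let A : (Fin n → ZMod 2) →+ X :=
      { toFun := fun v => F (act (gen g) (e v))
        map_zero' := by rw [map_zero, act_zero, map_zero]
        map_add' := by
          intro a b
          rw [map_add, act_add, map_add] }
    let B : (Fin n → ZMod 2) →+ X :=
      { toFun := fun v => act (gen g) (F (e v))
        map_zero' := by rw [map_zero, map_zero, act_zero]
        map_add' := by
          intro a b
          rw [map_add, map_add, act_add] }
    have hAB : A = B := by
      apply AddMonoidHom.functions_ext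
      intro j x
      have hx : x = 0 ∨ x = 1 := by revert x; decide
      rcases hx with rfl | rfl
      · rw [Pi.single_zero, map_zero, map_zero]
      · exact h1 g j
    have := DFunLike.congr_fun hAB (e.symm v)
    change F (act (gen g) (e (e.symm v))) = act (gen g) (F (e (e.symm v))) at this
    rwa [e.apply_symm_apply] at this
  have h3 : ∀ g v, F (act g v) = act g (F v) := by
    intro g
    obtain ⟨l, rfl⟩ := gen_surj g
    induction l with
    | nil => intro v; rw [word_nil, act_one, act_one]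
    | cons i l ih =>
      intro v
      rw [word_cons, act_mul, h2, ih, act_mul]
  exact ⟨mkLin F h3, hF⟩

end

/-! ### the three cases -/

/-- certificates for `V` -/
def TV : Fin 6 → Fin 4 → Cert 4 :=
  ![![.S 0 [0],
      .D 0 1 [] [] [] [0],
      .S 2 [0, 1, 0],
      .S 3 [0, 1, 0]],
    ![.S 0 [1],
      .S 1 [1, 0, 1, 0],
      .D 1 2 [3, 4] [4] [0, 4] [4, 1, 0],
      .S 3 [5, 2, 1, 0, 1, 5, 0]],
    ![.S 0 [2],
      .S 1 [2],
      .S 2 [5, 5, 1, 0, 1, 5, 0],
      .D 2 3 [4, 5, 3, 2, 4] [5, 2, 4] [5, 0, 4] [5, 4, 1, 0]],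
    ![.S 1 [],
      .D 0 1 [] [] [] [],
      .S 2 [0, 4],
      .S 3 [0, 4]],
    ![.S 0 [4],
      .S 2 [],
      .D 1 2 [3, 4] [4] [0, 4] [4, 1],
      .S 3 [1, 0, 1, 5, 0]],
    ![.S 0 [5],
      .S 1 [5],
      .S 3 [],
      .D 2 3 [4, 5, 3, 4] [5, 4] [1, 0, 1, 5, 4] [5, 2, 4, 1]]]

/-- certificates for `V*` -/
def TD : Fin 6 → Fin 4 → Cert 4 :=
  ![![.D 1 0 [4, 5, 3, 0, 4] [3, 0, 4] [3, 2, 4] [3, 4, 1, 2],
      .S 1 [3, 3, 1, 2, 1, 3, 2],
      .S 2 [0],
      .S 3 [0]],
    ![.S 0 [1, 2, 1, 0, 1, 2, 1],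
      .D 2 1 [5, 4] [4] [2, 4] [4, 1, 2],
      .S 2 [2, 1, 2, 1],
      .S 3 [1]],
    ![.S 0 [2, 1, 2],
      .S 1 [2, 1, 2],
      .D 3 2 [] [] [] [2],
      .S 3 [2]],
    ![.D 1 0 [4, 5, 3, 4] [3, 4] [1, 2, 1, 3, 4] [3, 0, 4, 1],
      .S 0 [],
      .S 2 [3],
      .S 3 [3]],
    ![.S 0 [1, 2, 1, 3, 2],
      .D 2 1 [5, 4] [4] [2, 4] [4, 1],
      .S 1 [],
      .S 3 [4]],
    ![.S 0 [2, 4],
      .S 1 [2, 4],
      .D 3 2 [] [] [] [],
      .S 2 []]]

/-- certificates for `L` -/
def TL : Fin 6 → Fin 6 → Cert 6 :=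
  ![![.S 0 [0],
      .S 1 [1, 0, 1, 0],
      .S 2 [1, 0, 1, 0],
      .D 1 3 [4, 3] [3] [1, 3] [3, 0, 1],
      .D 2 4 [5, 4, 3] [3] [1, 3] [3, 0, 1],
      .S 5 [0, 1, 2, 1, 0]],
    ![.S 0 [1],
      .D 0 1 [] [] [] [1],
      .S 2 [1, 2, 1],
      .S 3 [1, 0, 1],
      .S 4 [5, 5, 1, 0, 1, 5, 0],
      .D 4 5 [3, 4, 5, 4, 3, 0] [1, 5, 3, 0] [3, 1, 5] [5, 3, 2, 1]],
    ![.S 0 [2],
      .S 1 [2, 1, 2, 1],
      .D 1 2 [4, 5] [5] [1, 5] [5, 2, 1],
      .S 3 [2, 1, 2, 1],
      .D 3 4 [3, 4, 5] [5] [1, 5] [5, 2, 1],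
      .S 5 [2, 1, 0, 1, 2]],
    ![.S 0 [3],
      .S 3 [],
      .S 4 [],
      .D 1 3 [4, 3] [3] [1, 3] [3, 0],
      .D 2 4 [5, 4, 3] [3] [1, 3] [3, 0],
      .S 5 [0, 1, 5, 0]],
    ![.S 1 [],
      .D 0 1 [] [] [] [],
      .S 2 [1, 5],
      .S 3 [1, 3],
      .S 5 [],
      .D 4 5 [3, 4, 5, 4, 3, 0] [1, 5, 3, 0] [3, 1, 5] [5, 2, 1, 3]],
    ![.S 0 [5],
      .S 2 [],
      .D 1 2 [4, 5] [5] [1, 5] [5, 2],
      .S 4 [],
      .D 3 4 [3, 4, 5] [5] [1, 5] [5, 2],
      .S 5 [2, 1, 3, 2]]]

def cV : Fin 4 → List (Fin 6) := ![[], [3], [4, 3], [5, 4, 3]]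
def cD : Fin 4 → List (Fin 6) := ![[3, 4, 5], [4, 5], [5], []]
def cL : Fin 6 → List (Fin 6) := ![[], [4], [5, 4], [3, 4], [5, 3, 4], [4, 5, 3, 4]]

theorem okV : ∀ g j, (TV g j).ok 3 ![true, true, true, false, true, true] cV g j = true := by
  decide +kernel
theorem okD : ∀ g j, (TD g j).ok 5 ![true, true, true, true, true, false] cD g j = true := by
  decide +kernel
theorem okL : ∀ g j, (TL g j).ok 4 ![true, true, true, true, false, true] cL g j = true := by
  decide +kernel

theorem imgV : ∀ g j, (((gen g).1 *ᵥ (Pi.single j 1) : V4)) =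
    (((TV g j).img).map (fun k => (Pi.single k 1 : V4))).sum := by
  decide +kernel
theorem imgD : ∀ g j, ((((gen g)⁻¹).1ᵀ *ᵥ (Pi.single j 1) : V4)) =
    (((TD g j).img).map (fun k => (Pi.single k 1 : V4))).sum := by
  decide +kernel
theorem imgL : ∀ g j, ((actL (gen g).1 (Pi.single j 1) : V6)) =
    (((TL g j).img).map (fun k => (Pi.single k 1 : V6))).sum := by
  decide +kernel

end M06

open M06

theorem bHV100 : S_HV100 := by
  intro X _ _ w hw
  have hst : ∀ i : Fin 6, (![true, true, true, false, true, true] : Fin 6 → Bool) i = true →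
      act (gen i) w = w := by
    intro i
    fin_cases i
    · exact fun _ => hw.fix 0
    · exact fun _ => hw.fix 1
    · exact fun _ => hw.fix 2
    · intro h; exact absurd h (by decide)
    · exact fun _ => hw.eig1 1 rfl
    · exact fun _ => hw.eig1 2 rfl
  have hrel : w + act (gen 3) w + act (gen 3 ^ 2) w = 0 := hw.eig0 0 rfl
  obtain ⟨f, hf⟩ := build (M := MV) (AddEquiv.refl _) hst hrel cV TV okV (by
    intro g j
    rw [act_MV]
    exact imgV g j)
  refine ⟨f, ?_⟩
  have h0 := hf 0
  have e1 : (AddEquiv.refl (Fin 4 → ZMod 2) (Pi.single 0 1) : MV) = vE0 := by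
    change (Pi.single 0 1 : Fin 4 → ZMod 2) = ![1, 0, 0, 0]
    decide
  have e2 : word (cV 0) = 1 := rfl
  rw [e2, act_one] at h0
  rw [← e1]
  exact h0

theorem bHV001 : S_HV001 := by
  intro X _ _ w hw
  have hst : ∀ i : Fin 6, (![true, true, true, true, true, false] : Fin 6 → Bool) i = true →
      act (gen i) w = w := by
    intro i
    fin_cases i
    · exact fun _ => hw.fix 0
    · exact fun _ => hw.fix 1
    · exact fun _ => hw.fix 2
    · exact fun _ => hw.eig1 0 rfl
    · exact fun _ => hw.eig1 1 rfl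
    · intro h; exact absurd h (by decide)
  have hrel : w + act (gen 5) w + act (gen 5 ^ 2) w = 0 := hw.eig0 2 rfl
  obtain ⟨f, hf⟩ := build (M := MD) (AddEquiv.refl _) hst hrel cD TD okD (by
    intro g j
    rw [act_MD]
    exact imgD g j)
  refine ⟨f, ?_⟩
  have h0 := hf 3
  have e1 : (AddEquiv.refl (Fin 4 → ZMod 2) (Pi.single 3 1) : MD) =
      (![0, 0, 0, 1] : Fin 4 → ZMod 2) := by
    change (Pi.single 3 1 : Fin 4 → ZMod 2) = ![0, 0, 0, 1]
    decide
  have e2 : word (cD 3) = 1 := rfl
  rw [e2, act_one] at h0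
  rw [← e1]
  exact h0

theorem bHV010 : S_HV010 := by
  intro X _ _ w hw
  have hst : ∀ i : Fin 6, (![true, true, true, true, false, true] : Fin 6 → Bool) i = true →
      act (gen i) w = w := by
    intro i
    fin_cases i
    · exact fun _ => hw.fix 0
    · exact fun _ => hw.fix 1
    · exact fun _ => hw.fix 2
    · exact fun _ => hw.eig1 0 rfl
    · intro h; exact absurd h (by decide)
    · exact fun _ => hw.eig1 2 rfl
  have hrel : w + act (gen 4) w + act (gen 4 ^ 2) w = 0 := hw.eig0 1 rfl
  obtain ⟨f, hf⟩ := build (M := ML) (AddEquiv.refl _) hst hrel cL TL okL (by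
    intro g j
    rw [act_ML]
    exact imgL g j)
  refine ⟨f, ?_⟩
  have h0 := hf 0
  have e1 : (AddEquiv.refl (Fin 6 → ZMod 2) (Pi.single 0 1) : ML) = lE01 := by
    change (Pi.single 0 1 : Fin 6 → ZMod 2) = ![1, 0, 0, 0, 0, 0]
    decide
  have e2 : word (cL 0) = 1 := rfl
  rw [e2, act_one] at h0
  rw [← e1]
  exact h0

end Pool.Agent.A8
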