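import Pool.Agent.Helper89.A8.Stmts
import Pool.Agent.Helper89.A8.GTools
import Pool.Agent.Helper89.A8.GFix
import Pool.Agent.Helper50.A8.G15

/-!
# Block A8-G19: elements of the kernel commuting with an element of type 3A are involutions

Project MP_93c1ff; statement and proof in words by helper89, Lean proof by helper26.
-/

set_option autoImplicit false
set_option linter.unusedSectionVars false
set_option linter.unusedVariables false

namespace Pool.Agent.A8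

open Matrix
open scoped commutatorElement

namespace G19

/-! ### linear maps from relations -/

theorem lin_of_rel {P M : Type} [AddCommGroup P] [Module RG P] [AddCommGroup M] [Module RG M]
    (R : P → M → Prop) (tot : ∀ p, ∃ m, R p m) (uni : ∀ p m m', R p m → R p m' → m = m')
    (add : ∀ p p' m m', R p m → R p' m' → R (p + p') (m + m'))
    (hact : ∀ g p m, R p m → R (act g p) (act g m)) :
    ∃ f : P →ₗ[RG] M, ∀ p, R p (f p) := by
  choose F hF using tot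
  exact ⟨mkLin (AddMonoidHom.mk' F fun p p' => uni _ _ _ (hF _) (add _ _ _ _ (hF p) (hF p')))
    (fun g p => uni _ _ _ (hF _) (hact g p _ (hF p))), hF⟩

theorem add_eq_zero' {X : Type*} [AddCommGroup X] [Module RG X] {x y : X} (h : x + y = 0) :
    x = y := by
  rw [add_eq_zero_iff_eq_neg] at h
  rw [h, neg_eq]

section
variable {G : Type} [Group G] {π : G →* Gam} {X : Subgroup G}
variable {M : Type} [AddCommGroup M] [Module RG M] {φ : G → M}

/-- the preimage of a submodule -/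
def subOf (h : HomOn π X φ) (N : Submodule RG M) : Subgroup G where
  carrier := {x | x ∈ X ∧ φ x ∈ N}
  one_mem' := ⟨X.one_mem, by rw [h.map_one]; exact N.zero_mem⟩
  mul_mem' := by
    rintro a b ⟨ha, ha'⟩ ⟨hb, hb'⟩
    exact ⟨X.mul_mem ha hb, by rw [h.mul a ha b hb]; exact N.add_mem ha' hb'⟩
  inv_mem' := by
    rintro a ⟨ha, ha'⟩
    exact ⟨X.inv_mem ha, by rw [h.map_inv ha]; exact ha'⟩

theorem mem_subOf (h : HomOn π X φ) (N : Submodule RG M) {x : G} :
    x ∈ subOf h N ↔ x ∈ X ∧ φ x ∈ N := Iff.rfl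

theorem subOf_normal (h : HomOn π X φ) (hX : X.Normal) (N : Submodule RG M) :
    (subOf h N).Normal := by
  constructor
  rintro x ⟨hx, hx'⟩ g
  exact ⟨hX.conj_mem x hx g, by rw [h.conj g x hx]; exact act_mem _ hx'⟩

/-- the image of a normal subgroup -/
def imOf (hs : Function.Surjective π) (h : HomOn π X φ) {D : Subgroup G} (hD : D.Normal)
    (hDX : D ≤ X) : Submodule RG M :=
  mkSub
    { carrier := {m | ∃ x ∈ D, φ x = m}
      zero_mem' := ⟨1, D.one_mem, h.map_one⟩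
      add_mem' := by
        rintro _ _ ⟨x, hx, rfl⟩ ⟨y, hy, rfl⟩
        exact ⟨x * y, D.mul_mem hx hy, h.mul x (hDX hx) y (hDX hy)⟩
      neg_mem' := by
        rintro _ ⟨x, hx, rfl⟩
        exact ⟨x, hx, (neg_eq _).symm⟩ }
    (by
      rintro g _ ⟨x, hx, rfl⟩
      obtain ⟨g0, rfl⟩ := hs g
      exact ⟨g0 * x * g0⁻¹, hD.conj_mem x hx g0, h.conj g0 x (hDX hx)⟩)

theorem mem_imOf (hs : Function.Surjective π) (h : HomOn π X φ) {D : Subgroup G} (hD : D.Normal)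
    (hDX : D ≤ X) {m : M} : m ∈ imOf hs h hD hDX ↔ ∃ x ∈ D, φ x = m := Iff.rfl

theorem sec_of_hom (hS : S_SIM) (hs : Function.Surjective π) (hφ : HomOn π X φ)
    {N P : Submodule RG M} (hNP : N ⋖ P) {D : Subgroup G} (hD : D.Normal) (hDX : D ≤ X)
    (hDP : ∀ x ∈ D, φ x ∈ P) (hne : ∃ x ∈ D, φ x ∉ N)
    (hmin : ∀ D' : Subgroup G, D'.Normal → D' ≤ D → D' ≠ D → ∀ x ∈ D', φ x ∈ N)
    {a : Ty} {θ : G → Md a} (hθ : HomOn π D θ) (hθ0 : ∃ x ∈ D, θ x ≠ 0) : SecIso a N P := by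
  have hφD : HomOn π D φ := hφ.mono hDX
  have := hS a
  have hk : ∀ x ∈ D, θ x = 0 → φ x ∈ N := by
    intro x hx hx0
    refine hmin hθ.kerG (hθ.kerG_normal hD) hθ.kerG_le (fun he => ?_) x ⟨hx, hx0⟩
    obtain ⟨y, hy, hy0⟩ := hθ0
    rw [← he] at hy
    exact hy0 hy.2
  have hk' : ∀ x ∈ D, φ x ∈ N → θ x = 0 := by
    intro x hx hxN
    by_contra hx0
    have hD' := subOf_normal hφD hD N
    have hle : subOf hφD N ≤ D := fun y hy => hy.1
    have htop : imOf hs hθ hD' hle = ⊤ := by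
      rcases eq_bot_or_eq_top (imOf hs hθ hD' hle) with hb | ht
      · exfalso
        have h1 : θ x ∈ imOf hs hθ hD' hle := ⟨x, ⟨hx, hxN⟩, rfl⟩
        rw [hb, Submodule.mem_bot] at h1
        exact hx0 h1
      · exact ht
    obtain ⟨x1, hx1, hx1N⟩ := hne
    have h2 : θ x1 ∈ imOf hs hθ hD' hle := by rw [htop]; trivial
    obtain ⟨y, ⟨hy, hyN⟩, hy1⟩ := h2
    have h3 := hk (x1 * y⁻¹) (D.mul_mem hx1 (D.inv_mem hy))
      (by rw [hθ.map_mul_inv hx1 hy, hy1, add_self])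
    rw [hφD.map_mul_inv hx1 hy] at h3
    exact hx1N ((Submodule.add_mem_iff_left N hyN).1 h3)
  -- the image of `D` and `N` generate `P`
  have hsup : N ⊔ imOf hs hφ hD hDX = P := by
    have hle : N ⊔ imOf hs hφ hD hDX ≤ P := by
      refine sup_le hNP.le ?_
      rintro _ ⟨x, hx, rfl⟩
      exact hDP x hx
    have hlt : N < N ⊔ imOf hs hφ hD hDX := by
      refine lt_of_le_of_ne le_sup_left fun he => ?_
      obtain ⟨x, hx, hxN⟩ := hne
      apply hxN
      rw [he]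
      exact Submodule.mem_sup_right ⟨x, hx, rfl⟩
    exact (hNP.eq_or_eq hlt.le hle).resolve_left hlt.ne'
  obtain ⟨f, hf⟩ := lin_of_rel (P := P) (M := Md a)
    (fun p m => ∃ x ∈ D, φ x + (p : M) ∈ N ∧ θ x = m)
    (by
      rintro ⟨p, hp⟩
      rw [← hsup] at hp
      obtain ⟨n, hn, m, ⟨x, hx, rfl⟩, rfl⟩ := Submodule.mem_sup.1 hp
      refine ⟨θ x, x, hx, ?_, rfl⟩
      change φ x + (n + φ x) ∈ N
      have e : φ x + (n + φ x) = n := by
        rw [add_comm n, ← add_assoc, add_self, zero_add]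
      rw [e]
      exact hn)
    (by
      rintro p _ _ ⟨x, hx, hxN, rfl⟩ ⟨y, hy, hyN, rfl⟩
      have h := N.add_mem hxN hyN
      have e : φ x + (p : M) + (φ y + (p : M)) = φ (x * y⁻¹) := by
        rw [hφD.map_mul_inv hx hy]
        have : (p : M) + (p : M) = 0 := add_self _
        calc φ x + (p : M) + (φ y + (p : M)) = φ x + φ y + ((p : M) + p) := by abel
          _ = _ := by rw [this, add_zero]
      rw [e] at h
      have h2 := hk' _ (D.mul_mem hx (D.inv_mem hy)) h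
      rw [hθ.map_mul_inv hx hy] at h2
      exact add_eq_zero' h2)
    (by
      rintro p p' _ _ ⟨x, hx, hxN, rfl⟩ ⟨y, hy, hyN, rfl⟩
      refine ⟨x * y, D.mul_mem hx hy, ?_, hθ.mul x hx y hy⟩
      have h := N.add_mem hxN hyN
      have e : φ (x * y) + ((p + p' : P) : M) = φ x + (p : M) + (φ y + (p' : M)) := by
        rw [hφD.mul x hx y hy, Submodule.coe_add]
        abel
      rw [e]
      exact h)
    (by
      rintro g p _ ⟨x, hx, hxN, rfl⟩
      obtain ⟨g0, rfl⟩ := hs g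
      refine ⟨g0 * x * g0⁻¹, hD.conj_mem x hx g0, ?_, hθ.conj g0 x hx⟩
      rw [hφD.conj g0 x hx, act_coe, ← act_add]
      exact act_mem _ hxN)
  have hker : ∀ x : P, f x = 0 ↔ (x : M) ∈ N := by
    intro p
    obtain ⟨y, hy, hyN, hyf⟩ := hf p
    constructor
    · intro h0
      rw [h0] at hyf
      exact (Submodule.add_mem_iff_right N (hk y hy hyf)).1 hyN
    · intro hp
      rw [← hyf]
      exact hk' y hy ((Submodule.add_mem_iff_left N hp).1 hyN)
  refine ⟨f, ?_, hker⟩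
  rw [← LinearMap.range_eq_top]
  rcases eq_bot_or_eq_top (LinearMap.range f) with hb | ht
  · exfalso
    obtain ⟨x, hx, hxN⟩ := hne
    apply hxN
    have h1 : f ⟨φ x, hDP x hx⟩ = 0 := by
      have h2 : f ⟨φ x, hDP x hx⟩ ∈ LinearMap.range f := ⟨_, rfl⟩
      rw [hb, Submodule.mem_bot] at h2
      exact h2
    exact (hker _).1 h1
  · exact ht

theorem vdl_of_cov (hS : S_SIM) (hCOV : S_COV) [Finite G] (hπ : Cfg π) (hX : X.Normal)
    (hXK : X ≤ π.ker) (hφ : HomOn π X φ) (hsurj : ∀ m, ∃ x ∈ X, φ x = m)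
    (hz : ∀ x ∈ X, x ∈ ZK π → φ x = 0) : VDL M := by
  intro N P hNP
  have hU := subOf_normal hφ hX P
  have hW := subOf_normal hφ hX N
  have hUX : subOf hφ P ≤ X := fun _ hx => hx.1
  have hUW : ¬ subOf hφ P ≤ subOf hφ N := by
    intro hle
    obtain ⟨p, hp, hpN⟩ := SetLike.exists_of_lt hNP.lt
    obtain ⟨x, hx, rfl⟩ := hsurj p
    exact hpN (hle ⟨hx, hp⟩).2
  obtain ⟨D, hD, hDU, hDW, hmin, hDD⟩ := hCOV G π hπ (subOf hφ P) (subOf hφ N) hU hW
    (hUX.trans hXK) hUW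
  obtain ⟨x, hx, hxW⟩ := SetLike.not_le_iff_exists.1 hDW
  have hxN : φ x ∉ N := fun h => hxW ⟨(hDU hx).1, h⟩
  rcases hDD with ⟨a, ψ, hL, hψ⟩ | hZ
  · refine ⟨a, sec_of_hom hS hπ.surj hφ hNP hD (hDU.trans hUX) (fun y hy => (hDU hy).2)
      ⟨x, hx, hxN⟩ (fun D' hD' hle hne y hy => (hmin D' hD' hle hne hy).2) hL.toHomOn
      ⟨x, hx, fun h0 => hxW ((hψ x hx).1 h0)⟩⟩
  · exfalso
    apply hxN
    rw [hz x (hDU hx).1 (hZ hx)]
    exact N.zero_mem

end

/-! ### sections and joins -/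

theorem sup_covBy {E : Type} [AddCommGroup E] [Module RG E] {N P Q : Submodule RG E}
    (hNP : N ⋖ P) (hPQ : Q ⊓ P ≤ N) : N ⊔ Q ⋖ P ⊔ Q := by
  have e1 : P ⊓ (N ⊔ Q) = N := by
    rw [inf_comm, sup_inf_assoc_of_le Q hNP.le]
    exact sup_eq_left.2 hPQ
  have e2 : P ⊔ (N ⊔ Q) = P ⊔ Q := by
    rw [← sup_assoc, sup_eq_left.2 hNP.le]
  rw [← e2]
  apply covBy_sup_of_inf_covBy_left
  rw [e1]
  exact hNP

theorem secIso_of_sup {E : Type} [AddCommGroup E] [Module RG E] {N P Q : Submodule RG E}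
    (hNP : N ⋖ P) (hPQ : Q ⊓ P ≤ N) {a : Ty} (h : SecIso a (N ⊔ Q) (P ⊔ Q)) : SecIso a N P := by
  have e1 : (N ⊔ Q) ⊓ P = N := by
    rw [sup_inf_assoc_of_le Q hNP.le]
    exact sup_eq_left.2 hPQ
  obtain ⟨f, hf, hk⟩ := h
  refine ⟨f.comp (Submodule.inclusion (le_sup_left : P ≤ P ⊔ Q)), ?_, ?_⟩
  · intro m
    obtain ⟨⟨y, hy⟩, hym⟩ := hf m
    obtain ⟨p, hp, q, hq, rfl⟩ := Submodule.mem_sup.1 hy
    refine ⟨⟨p, hp⟩, ?_⟩
    have hq0 : f ⟨q, Submodule.mem_sup_right hq⟩ = 0 := (hk _).2 (Submodule.mem_sup_right hq)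
    have e : (⟨p + q, hy⟩ : (P ⊔ Q : Submodule RG E)) =
        ⟨p, Submodule.mem_sup_left hp⟩ + ⟨q, Submodule.mem_sup_right hq⟩ := rfl
    rw [e, map_add, hq0, add_zero] at hym
    exact hym
  · intro x
    have h1 := hk (Submodule.inclusion (le_sup_left : P ≤ P ⊔ Q) x)
    constructor
    · intro h0
      have h2 : (x : E) ∈ (N ⊔ Q) ⊓ P := ⟨h1.1 h0, x.2⟩
      rwa [e1] at h2
    · intro hx
      exact h1.2 (Submodule.mem_sup_left hx)

/-- every nontrivial normal subgroup of `A` has a nonzero homomorphism to a small module -/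
def QP {G : Type} [Group G] (π : G →* Gam) (A : Subgroup G) : Prop :=
  ∀ D : Subgroup G, D.Normal → D ≤ A → D ≠ ⊥ →
    ∃ (a : Ty) (θ : G → Md a), HomOn π D θ ∧ ∃ x ∈ D, θ x ≠ 0

section
variable {G : Type} [Group G] {π : G →* Gam}

theorem homOn_dual {D : Subgroup G} {a : Ty} {θ : G → Md a} (h : HomOn π D θ) :
    HomOn (dlG.comp π) D (fun x => G15.io a (θ x)) :=
  ⟨fun x hx y hy => by rw [h.mul x hx y hy, G15.io_add],
    fun g x hx => by rw [h.conj g x hx, G15.io_act]; rfl⟩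

theorem QP_dual {A : Subgroup G} (h : QP (dlG.comp π) A) : QP π A := by
  intro D hD hDA hne
  obtain ⟨a, θ, hθ, x, hx, hx0⟩ := h D hD hDA hne
  have h1 := homOn_dual hθ
  rw [G15.comp_comp] at h1
  exact ⟨G15.dt a, _, h1, x, hx, fun h0 => hx0 ((G15.io_eq_zero a).1 h0)⟩

theorem QP_of {A : Subgroup G} (h : GHg π .l (rjT π .d A ⊥) ⊥) : QP π A := by
  intro D hD hDA hne
  by_cases hDR : D ≤ rjT π .d A ⊥
  · obtain ⟨x, hx, hx1⟩ := SetLike.exists_of_lt (bot_lt_iff_ne_bot.2 hne)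
    by_contra hcon
    push Not at hcon
    apply hx1
    refine h x (hDR hx) fun ψ hψ _ => ?_
    exact hcon .l ψ (hψ.mono hDR) x hx
  · obtain ⟨x, hx, hxR⟩ := SetLike.not_le_iff_exists.1 hDR
    by_contra hcon
    push Not at hcon
    apply hxR
    refine ⟨hDA hx, fun ψ hψ _ => ?_⟩
    exact hcon .d ψ (hψ.mono hDA) x hx

theorem sec_of_QP (hS : S_SIM) [Finite G] (hs : Function.Surjective π) {E0 : Subgroup G}
    {E : Type} [AddCommGroup E] [Module RG E] {φ : G → E}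
    (hφ : HomOn π E0 φ) {N P : Submodule RG E} (hNP : N ⋖ P) {A : Subgroup G} (hA : A.Normal)
    (hAE : A ≤ E0) (hQ : QP π A) (hne : ∃ x ∈ A, φ x ∈ P ∧ φ x ∉ N) : ∃ a, SecIso a N P := by
  obtain ⟨x0, hx0, hx0P, hx0N⟩ := hne
  have hφA := hφ.mono hAE
  obtain ⟨D, hD⟩ := Set.Finite.exists_minimal
    (s := {D : Subgroup G | D.Normal ∧ D ≤ subOf hφA P ∧ ∃ x ∈ D, φ x ∉ N}) (Set.toFinite _)
    ⟨subOf hφA P, subOf_normal hφA hA P, le_rfl, x0, ⟨hx0, hx0P⟩, hx0N⟩
  obtain ⟨⟨hDn, hDX, x, hx, hxN⟩, hmin⟩ := hD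
  have hDA : D ≤ A := fun y hy => (hDX hy).1
  obtain ⟨a, θ, hθ, hθ0⟩ := hQ D hDn hDA (by
    rintro rfl
    rw [Subgroup.mem_bot] at hx
    rw [hx, hφ.map_one] at hxN
    exact hxN N.zero_mem)
  refine ⟨a, sec_of_hom hS hs hφA hNP hDn hDA (fun y hy => (hDX hy).2) ⟨x, hx, hxN⟩ ?_ hθ hθ0⟩
  intro D' hD' hle hne' y hy
  by_contra hyN
  exact hne' (le_antisymm hle (hmin ⟨hD', hle.trans hDX, y, hy, hyN⟩ hle))

theorem vdl_E (hS : S_SIM) [Finite G] (hs : Function.Surjective π) {A A' : Subgroup G}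
    (hA : A.Normal) (hA' : A'.Normal) {E : Type} [AddCommGroup E] [Module RG E] {φ : G → E}
    (hφ : HomOn π (A ⊔ A') φ) (hsurj : ∀ m, ∃ x ∈ A ⊔ A', φ x = m) (hQ : QP π A)
    (hQ' : QP π A') : VDL E := by
  intro N P hNP
  by_cases hc : ∃ x ∈ A, φ x ∈ P ∧ φ x ∉ N
  · exact sec_of_QP hS hs hφ hNP hA le_sup_left hQ hc
  · push Not at hc
    set Q := imOf hs hφ hA le_sup_left with hQd
    have hPQ : Q ⊓ P ≤ N := by
      rintro _ ⟨⟨x, hx, rfl⟩, hxP⟩
      exact hc x hx hxP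
    have hcov := sup_covBy hNP hPQ
    obtain ⟨a, ha⟩ := sec_of_QP hS hs hφ hcov hA' le_sup_right hQ' (by
      by_contra hcon
      push Not at hcon
      obtain ⟨p, hp, hpN⟩ := SetLike.exists_of_lt hcov.lt
      apply hpN
      obtain ⟨x, hx, rfl⟩ := hsurj p
      obtain ⟨y, hy, z, hz, rfl⟩ := Subgroup.mem_sup_of_normal_left.1 hx
      have hyQ : φ y ∈ Q := ⟨y, hy, rfl⟩
      have hym : y ∈ A ⊔ A' := Subgroup.mem_sup_left hy
      have hzm : z ∈ A ⊔ A' := Subgroup.mem_sup_right hz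
      rw [hφ.mul y hym z hzm] at hp ⊢
      have hzP : φ z ∈ P ⊔ Q := by
        exact (Submodule.add_mem_iff_right _ (Submodule.mem_sup_right hyQ)).1 hp
      exact Submodule.add_mem _ (Submodule.mem_sup_right hyQ) (hcon z hz hzP))
    exact ⟨a, secIso_of_sup hNP hPQ ha⟩

end

/-! ### conjugacy of lifts of elements of order 3 -/

section
variable {G : Type} [Group G] [Finite G] {π : G →* Gam}

theorem conj_lift (hπ : Cfg π) {b c : G} (hb : b ^ 3 = 1) (hc : c ^ 3 = 1) (hbc : π b = π c) :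
    ∃ k ∈ π.ker, k * b * k⁻¹ = c := by
  classical
  have := Fintype.ofFinite π.ker
  let σ : Equiv.Perm π.ker :=
    { toFun := fun k => ⟨c * k * b⁻¹, by
        rw [MonoidHom.mem_ker, map_mul, map_mul, MonoidHom.mem_ker.1 k.2, map_inv, hbc, mul_one,
          mul_inv_cancel]⟩
      invFun := fun k => ⟨c⁻¹ * k * b, by
        rw [MonoidHom.mem_ker, map_mul, map_mul, MonoidHom.mem_ker.1 k.2, map_inv, hbc, mul_one,
          inv_mul_cancel]⟩
      left_inv := by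
        intro k
        apply Subtype.ext
        change c⁻¹ * (c * k * b⁻¹) * b = k
        group
      right_inv := by
        intro k
        apply Subtype.ext
        change c * (c⁻¹ * k * b) * b⁻¹ = k
        group }
  have hσ : ∀ k, (σ k : G) = c * k * b⁻¹ := fun _ => rfl
  have hσ3 : σ ^ 3 ^ 1 = 1 := by
    ext k
    have e : (σ ^ 3 ^ 1) k = σ (σ (σ k)) := rfl
    rw [e, hσ, hσ, hσ]
    change c * (c * (c * (k : G) * b⁻¹) * b⁻¹) * b⁻¹ = k
    have : c * (c * (c * (k : G) * b⁻¹) * b⁻¹) * b⁻¹ = c ^ 3 * k * (b ^ 3)⁻¹ := by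
      rw [pow_succ, pow_two, pow_succ, pow_two]
      group
    rw [this, hb, hc]
    group
  have hcard : ¬ 3 ∣ Fintype.card π.ker := by
    obtain ⟨n, hn⟩ := IsPGroup.iff_card.1 hπ.ker2
    rw [← Nat.card_eq_fintype_card, hn]
    intro h
    exact absurd (Nat.Prime.dvd_of_dvd_pow (by norm_num) h) (by norm_num)
  have : Fact (Nat.Prime 3) := ⟨by norm_num⟩
  obtain ⟨k, hk⟩ := Equiv.Perm.exists_fixed_point_of_prime hcard hσ3
  refine ⟨k, k.2, ?_⟩
  have h1 := congrArg Subtype.val hk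
  rw [hσ] at h1
  have h2 : c * (k : G) = k * b := mul_inv_eq_iff_eq_mul.1 h1
  rw [← h2]
  group

/-- lifts normalising `<a>` -/
theorem lift_norm (hπ : Cfg π) {a : G} (ha : a ^ 3 = 1) (hπa : π a = ga) {g : Gam}
    (hg : g * ga * g⁻¹ = ga ∨ g * ga * g⁻¹ = ga⁻¹) :
    ∃ x : G, π x = g ∧ (x * a * x⁻¹ = a ∨ x * a * x⁻¹ = a⁻¹) := by
  obtain ⟨g0, rfl⟩ := hπ.surj g
  have h3 : (g0 * a * g0⁻¹) ^ 3 = 1 := by
    rw [conj_pow, ha]; group
  rcases hg with hg | hg
  · obtain ⟨k, hk, hkc⟩ := conj_lift hπ (b := g0 * a * g0⁻¹) (c := a) h3 ha (by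
      rw [map_mul, map_mul, map_inv, hπa, hg])
    refine ⟨k * g0, by rw [map_mul, MonoidHom.mem_ker.1 hk, one_mul], Or.inl ?_⟩
    calc k * g0 * a * (k * g0)⁻¹ = k * (g0 * a * g0⁻¹) * k⁻¹ := by group
      _ = a := hkc
  · obtain ⟨k, hk, hkc⟩ := conj_lift hπ (b := g0 * a * g0⁻¹) (c := a⁻¹) h3
      (by rw [inv_pow, ha, inv_one]) (by
      rw [map_mul, map_mul, map_inv, hπa, hg, map_inv, hπa])
    refine ⟨k * g0, by rw [map_mul, MonoidHom.mem_ker.1 hk, one_mul], Or.inr ?_⟩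
    calc k * g0 * a * (k * g0)⁻¹ = k * (g0 * a * g0⁻¹) * k⁻¹ := by group
      _ = a⁻¹ := hkc

theorem comm_conj {a u y : G} (hu : u * a * u⁻¹ = a ∨ u * a * u⁻¹ = a⁻¹) (hy : y * a = a * y) :
    (u * y * u⁻¹) * a = a * (u * y * u⁻¹) := by
  have h1 : (u * y * u⁻¹) * (u * a * u⁻¹) = (u * a * u⁻¹) * (u * y * u⁻¹) := by
    have : (u * y * u⁻¹) * (u * a * u⁻¹) = u * (y * a) * u⁻¹ := by group
    rw [this, hy]
    group
  rcases hu with hu | hu
  · rw [hu] at h1
    exact h1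
  · rw [hu] at h1
    have h2 : Commute (u * y * u⁻¹) a⁻¹ := h1
    exact (Commute.inv_right_iff.1 h2)

theorem split_comm (hC : S_COP) (hπ : Cfg π) {a : G} (ha : a ^ 3 = 1) {X M : Subgroup G}
    (hX : X.Normal) (hM : M.Normal) (hXK : X ≤ π.ker) {x : G} (hx : x ∈ X ⊔ M)
    (hxa : x * a = a * x) :
    ∃ y ∈ X, ∃ z ∈ M, y * a = a * y ∧ z * a = a * z ∧ x = y * z := by
  obtain ⟨y, hy, z, hz, rfl⟩ := Subgroup.mem_sup_of_normal_left.1 hx
  have hN : ∀ n ∈ X ⊓ M, a * n * a⁻¹ ∈ X ⊓ M := fun n hn =>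
    ⟨hX.conj_mem n hn.1 a, hM.conj_mem n hn.2 a⟩
  have hfix : a * (y * z) * a⁻¹ = y * z := by
    rw [← hxa]; group
  obtain ⟨n, hn, hna⟩ := cop_cyc hC (N := X ⊓ M) (hπ.pg (inf_le_left.trans hXK)) (m := 3)
    (by decide) ha hN (x := y) ⟨X.mul_mem (X.inv_mem hy) (hX.conj_mem y hy a), by
      have e : y⁻¹ * (a * y * a⁻¹) = z * (a * z⁻¹ * a⁻¹) := by
        have e2 : a * y * a⁻¹ = (a * (y * z) * a⁻¹) * (a * z⁻¹ * a⁻¹) := by group
        rw [e2, hfix]
        group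
      rw [e]
      exact M.mul_mem hz (hM.conj_mem _ (M.inv_mem hz) a)⟩
  refine ⟨y * n, X.mul_mem hy hn.1, n⁻¹ * z, M.mul_mem (M.inv_mem hn.2) hz, hna, ?_, by group⟩
  have h1 : Commute (y * n) a := hna
  have h2 : Commute (y * z) a := hxa
  have h3 := h1.inv_left.mul_left h2
  have e : (y * n)⁻¹ * (y * z) = n⁻¹ * z := by group
  rw [e] at h3
  exact h3

end

theorem fixV : ∀ v : MV, act ga v = v → v = 0 := by
  intro v h
  rw [act_MV] at h
  revert v
  change ∀ v : Fin 4 → ZMod 2, (ga.1 *ᵥ v) = v → v = 0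
  decide

theorem fixD : ∀ v : MD, act ga v = v → v = 0 := by
  intro v h
  rw [act_MD] at h
  revert v
  change ∀ v : Fin 4 → ZMod 2, ((ga⁻¹).1ᵀ *ᵥ v) = v → v = 0
  decide

section
variable {G : Type} [Group G] [Finite G] {π : G →* Gam}

theorem mem_rj {a v : G} (hπa : π a = ga) (hv : v ∈ Kt π .v) (hva : v * a = a * v) :
    v ∈ rjT π .v (Kt π .v) ⊥ := by
  refine ⟨hv, fun φ hφ _ => fixV _ ?_⟩
  have h := hφ.conj a v hv
  rw [hπa] at h
  rw [← h]
  congr 1
  rw [← hva]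
  group

theorem of_L7 (h0 : Str0 π) {a v : G} (hπa : π a = ga) (hv : v ∈ Kt π .v)
    (hva : v * a = a * v) : v * v = 1 ∧ ∀ y ∈ Kt π .l, v * y = y * v :=
  ⟨h0.el v (mem_rj hπa hv hva), fun y hy => h0.cl v (mem_rj hπa hv hva) y
    (Subgroup.mem_sup_left hy)⟩

end

section
variable {G : Type} [Group G] [Finite G] {π : G →* Gam}

/-- commutators of `K` with `Kl` -/
theorem comm_mem (St : Str π) : ∀ k ∈ π.ker, ∀ x ∈ Kt π .l,
    ⁅k, x⁆ ∈ ⁅Kt π .v, Kt π .l⁆ ⊔ ⁅Kt π .d, Kt π .l⁆ := by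
  have hv := Kt_normal π .v
  have hd := Kt_normal π .d
  have hl := Kt_normal π .l
  set E0 := ⁅Kt π .v, Kt π .l⁆ ⊔ ⁅Kt π .d, Kt π .l⁆ with hE0
  have hE : E0.Normal := by rw [hE0]; infer_instance
  let Cm : Subgroup G :=
    { carrier := {g | ∀ x ∈ Kt π .l, ⁅g, x⁆ ∈ E0}
      one_mem' := by
        intro x _
        rw [commutatorElement_one_left]
        exact E0.one_mem
      mul_mem' := by
        intro g h hg hh x hx
        have e : ⁅g * h, x⁆ = (g * ⁅h, x⁆ * g⁻¹) * ⁅g, x⁆ := by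
          simp only [commutatorElement_def]
          group
        rw [e]
        exact E0.mul_mem (hE.conj_mem _ (hh x hx) g) (hg x hx)
      inv_mem' := by
        intro g hg x hx
        have e : ⁅g⁻¹, x⁆ = g⁻¹ * ⁅g, x⁆⁻¹ * g⁻¹⁻¹ := by
          simp only [commutatorElement_def]
          group
        rw [e]
        exact hE.conj_mem _ (E0.inv_mem (hg x hx)) g⁻¹ }
  have hle : π.ker ≤ Cm := by
    rw [St.dec]
    refine sup_le (sup_le (sup_le ?_ ?_) ?_) ?_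
    · intro g hg x hx
      exact Subgroup.mem_sup_left (Subgroup.commutator_mem_commutator hg hx)
    · intro g hg x hx
      exact Subgroup.mem_sup_right (Subgroup.commutator_mem_commutator hg hx)
    · intro g hg x hx
      exact St.ll (Subgroup.commutator_mem_commutator hg hx)
    · intro g hg x hx
      rw [mem_ZK] at hg
      have : ⁅g, x⁆ = 1 := by
        rw [commutatorElement_eq_one_iff_mul_comm]
        exact (hg.1 x (Kt_le π .l hx)).symm
      rw [this]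
      exact E0.one_mem
  intro k hk
  exact hle hk

theorem sq_mem (St : Str π) (hInv : ∀ (R : Subgroup G) (φ : G → Md .l), Loc π R .l φ →
    R = Subgroup.closure {x | x ∈ R ∧ x * x = 1}) : ∀ x ∈ Kt π .l,
    x * x ∈ ⁅Kt π .v, Kt π .l⁆ ⊔ ⁅Kt π .d, Kt π .l⁆ := by
  set E0 := ⁅Kt π .v, Kt π .l⁆ ⊔ ⁅Kt π .d, Kt π .l⁆ with hE0
  have hEZ : E0 ≤ ZK π := sup_le St.aZ St.aZ'
  have hcen : ∀ e ∈ E0, ∀ y ∈ Kt π .l, y * e = e * y := fun e he y hy =>
    (mem_ZK.1 (hEZ he)).1 y (Kt_le π .l hy)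
  let S2 : Subgroup G :=
    { carrier := {x | x ∈ Kt π .l ∧ x * x ∈ E0}
      one_mem' := ⟨(Kt π .l).one_mem, by rw [one_mul]; exact E0.one_mem⟩
      mul_mem' := by
        rintro x y ⟨hx, hx2⟩ ⟨hy, hy2⟩
        refine ⟨(Kt π .l).mul_mem hx hy, ?_⟩
        have hc : ⁅y, x⁆ ∈ E0 := comm_mem St y (Kt_le π .l hy) x hx
        have e : (x * y) * (x * y) = ⁅y, x⁆ * (x * x) * (y * y) := by
          have e1 : y * x = ⁅y, x⁆ * (x * y) := by
            rw [commutatorElement_def]; group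
          calc (x * y) * (x * y) = x * (y * x) * y := by group
            _ = (x * ⁅y, x⁆) * (x * y) * y := by rw [e1]; group
            _ = (⁅y, x⁆ * x) * (x * y) * y := by rw [hcen _ hc x hx]
            _ = _ := by group
        rw [e]
        exact E0.mul_mem (E0.mul_mem hc hx2) hy2
      inv_mem' := by
        rintro x ⟨hx, hx2⟩
        refine ⟨(Kt π .l).inv_mem hx, ?_⟩
        have e : x⁻¹ * x⁻¹ = (x * x)⁻¹ := by group
        rw [e]
        exact E0.inv_mem hx2 }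
  have hle : Kt π .l ≤ S2 := by
    refine sSup_le ?_
    rintro R ⟨φ, hR⟩
    rw [hInv R φ hR, Subgroup.closure_le]
    rintro x ⟨hx, hx2⟩
    exact ⟨hR.le_Kt hx, by rw [hx2]; exact E0.one_mem⟩
  intro x hx
  exact (hle hx).2

/-- decomposition of the centraliser of `a` in the kernel -/
theorem dec_comm (hC : S_COP) (hπ : Cfg π) (St : Str π) {a : G} (ha : a ^ 3 = 1) {x : G}
    (hx : x ∈ π.ker) (hxa : x * a = a * x) :
    ∃ v ∈ Kt π .v, ∃ d ∈ Kt π .d, ∃ l ∈ Kt π .l, ∃ z ∈ ZK π, v * a = a * v ∧ d * a = a * d ∧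
      l * a = a * l ∧ x = v * d * l * z := by
  have hv := Kt_normal π .v
  have hd := Kt_normal π .d
  have hl := Kt_normal π .l
  have hz := ZK_normal π
  rw [St.dec] at hx
  obtain ⟨y, hy, z, hz', hya, -, rfl⟩ := split_comm hC hπ ha (X := Kt π .v ⊔ Kt π .d ⊔ Kt π .l)
    (M := ZK π) inferInstance hz (sup_le (sup_le (Kt_le π .v) (Kt_le π .d)) (Kt_le π .l)) hx hxa
  obtain ⟨w, hw, l, hl', hwa, hla, rfl⟩ := split_comm hC hπ ha (X := Kt π .v ⊔ Kt π .d)
    (M := Kt π .l) inferInstance hl (sup_le (Kt_le π .v) (Kt_le π .d)) hy hya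
  obtain ⟨v, hv', d, hd', hva, hda, rfl⟩ := split_comm hC hπ ha (X := Kt π .v)
    (M := Kt π .d) hv hd (Kt_le π .v) hw hwa
  exact ⟨v, hv', d, hd', l, hl', z, hz', hva, hda, hla, rfl⟩

/-- the conclusion, from the statement for `Kl` -/
theorem finish (hC : S_COP) (hπ : Cfg π) (St : Str π) {a : G} (ha : a ^ 3 = 1)
    (hV : ∀ v ∈ Kt π .v, v * a = a * v → v * v = 1 ∧ ∀ y ∈ Kt π .l, v * y = y * v)
    (hD : ∀ v ∈ Kt π .d, v * a = a * v → v * v = 1 ∧ ∀ y ∈ Kt π .l, v * y = y * v)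
    (hL : ∀ l ∈ Kt π .l, l * a = a * l → l * l = 1) {x : G} (hx : x ∈ π.ker)
    (hxa : x * a = a * x) : x * x = 1 := by
  obtain ⟨v, hv, d, hd, l, hl, z, hz, hva, hda, hla, rfl⟩ := dec_comm hC hπ St ha hx hxa
  have hzz := St.z2 z hz
  obtain ⟨hvv, hvl⟩ := hV v hv hva
  obtain ⟨hdd, hdl⟩ := hD d hd hda
  have hll := hL l hl hla
  have hvd : Commute v d := by
    have h1 : ⁅v, d⁆ ∈ ⁅Kt π .v, Kt π .d⁆ := Subgroup.commutator_mem_commutator hv hd
    rw [St.cv, Subgroup.mem_bot, commutatorElement_eq_one_iff_mul_comm] at h1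
    exact h1
  have hvl' : Commute v l := hvl l hl
  have hdl' : Commute d l := hdl l hl
  have hcz := (mem_ZK.1 hz).1
  have hvz : Commute v z := hcz v (Kt_le π .v hv)
  have hdz : Commute d z := hcz d (Kt_le π .d hd)
  have hlz : Commute l z := hcz l (Kt_le π .l hl)
  have c1 : Commute (v * d * l) z := (hvz.mul_left hdz).mul_left hlz
  have c2 : Commute (v * d) l := hvl'.mul_left hdl'
  have e : (v * d * l * z) * (v * d * l * z) = (v * v) * (d * d) * (l * l) * (z * z) := by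
    rw [c1.symm.mul_mul_mul_comm, c2.symm.mul_mul_mul_comm, hvd.symm.mul_mul_mul_comm]
  rw [e, hvv, hdd, hll, hzz]
  simp

/-- elements commuting with `a` commute with the elements of `Kl` commuting with `a` -/
theorem comm_all (hC : S_COP) (hπ : Cfg π) (St : Str π) {a : G} (ha : a ^ 3 = 1)
    (hV : ∀ v ∈ Kt π .v, v * a = a * v → v * v = 1 ∧ ∀ y ∈ Kt π .l, v * y = y * v)
    (hD : ∀ v ∈ Kt π .d, v * a = a * v → v * v = 1 ∧ ∀ y ∈ Kt π .l, v * y = y * v)
    (hL : ∀ l ∈ Kt π .l, l * a = a * l → ∀ y ∈ Kt π .l, y * a = a * y → l * y = y * l) {x : G}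
    (hx : x ∈ π.ker) (hxa : x * a = a * x) {y : G} (hy : y ∈ Kt π .l) (hya : y * a = a * y) :
    x * y = y * x := by
  obtain ⟨v, hv, d, hd, l, hl, z, hz, hva, hda, hla, rfl⟩ := dec_comm hC hπ St ha hx hxa
  have h1 : Commute v y := (hV v hv hva).2 y hy
  have h2 : Commute d y := (hD d hd hda).2 y hy
  have h3 : Commute l y := hL l hl hla y hy hya
  have h4 : Commute z y := ((mem_ZK.1 hz).1 y (Kt_le π .l hy)).symm
  exact ((h1.mul_left h2).mul_left h3).mul_left h4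

end

end G19

open G19 in
/-- the case 3A -/
theorem bC3A (h1 : S_3AP) (h2 : S_3AQ) (h3 : S_STR) (h4 : S_L7) (h5 : S_MTG) (h6 : S_PAIR)
    (h7 : S_QM) (h8 : S_COV) (h9 : S_COP) (h10 : S_INV) (h11 : S_DUALG) (h12 : S_M3C)
    (h13 : S_SIM) : S_C3A := by
  intro G _ _ π hπ a ha hπa x hx hxa
  have St := h3 G π hπ
  have S0 := h4 G π hπ
  obtain ⟨hπ', ev, ed, el⟩ := h11 G π hπ
  have S0' := h4 G (dlG.comp π) hπ'
  have hπa' : (dlG.comp π) a = ga := by
    rw [MonoidHom.comp_apply, hπa, dlG_ga]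
  have hV : ∀ v ∈ Kt π .v, v * a = a * v → v * v = 1 ∧ ∀ y ∈ Kt π .l, v * y = y * v :=
    fun v hv hva => of_L7 S0 hπa hv hva
  have hD : ∀ v ∈ Kt π .d, v * a = a * v → v * v = 1 ∧ ∀ y ∈ Kt π .l, v * y = y * v := by
    intro v hv hva
    have := of_L7 S0' hπa' (v := v) (by rw [ev]; exact hv) hva
    rw [el] at this
    exact this
  have nv := Kt_normal π .v
  have nd := Kt_normal π .d
  have nl := Kt_normal π .l
  have nz := ZK_normal π
  -- the module `E`
  have hA : (⁅Kt π .v, Kt π .l⁆ : Subgroup G).Normal := inferInstance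
  have hA' : (⁅Kt π .d, Kt π .l⁆ : Subgroup G).Normal := inferInstance
  have hE : (⁅Kt π .v, Kt π .l⁆ ⊔ ⁅Kt π .d, Kt π .l⁆ : Subgroup G).Normal := inferInstance
  have hEZ : ⁅Kt π .v, Kt π .l⁆ ⊔ ⁅Kt π .d, Kt π .l⁆ ≤ ZK π := sup_le St.aZ St.aZ'
  have hcomm := comm_mem St
  have hsq := sq_mem St (fun R φ hR => h10 G π hπ R .l φ hR)
  obtain ⟨E, _, _, _, φE, hφE, hE15⟩ := h7 G π hπ
    (⁅Kt π .v, Kt π .l⁆ ⊔ ⁅Kt π .d, Kt π .l⁆) ⊥ hE inferInstance bot_le
    (hEZ.trans (ZK_le π)) (fun y hy => by rw [Subgroup.mem_bot]; exact St.z2 y (hEZ hy))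
    (by
      rw [Subgroup.commutator_le]
      intro y hy k hk
      rw [Subgroup.mem_bot, commutatorElement_eq_one_iff_mul_comm]
      exact ((mem_ZK.1 (hEZ hy)).1 k hk).symm)
  have hφE0 : ∀ y ∈ ⁅Kt π .v, Kt π .l⁆ ⊔ ⁅Kt π .d, Kt π .l⁆, φE y = 0 → y = 1 :=
    fun y hy h0 => Subgroup.mem_bot.1 ((hφE.ker y hy).1 h0)
  have hVE : VDL E := by
    refine vdl_E h13 hπ.surj hA hA' hφE.toHomOn hφE.surj (QP_of (h5 G π hπ).2.1) (QP_dual ?_)
    have := (h5 G (dlG.comp π) hπ').2.1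
    rw [ev, el] at this
    exact QP_of this
  -- the commutator pairing
  obtain ⟨Xb, Yb, _, _, _, _, _, _, φ, ψ, p, hφ, hφs, hψ, hψs, hp, hAdm, hPL, hPR, hX15, hY15⟩ :=
    h6 G π hπ (Kt π .l) (Kt π .l) nl nl (Kt_le π .l) (Kt_le π .l) E φE
    (hφE.toHomOn.mono St.ll) (by
      intro y hy w hw k hk
      have hc := hcomm k hk y hy
      have e : ⁅k * y * k⁻¹, w⁆ = ⁅y, w⁆ := by
        have hcen := (mem_ZK.1 (hEZ hc)).1
        have e1 : k * y * k⁻¹ = ⁅k, y⁆ * y := by rw [commutatorElement_def]; group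
        have c1 : Commute ⁅k, y⁆ y := (hcen y (Kt_le π .l hy)).symm
        have c2 : Commute ⁅k, y⁆ w := (hcen w (Kt_le π .l hw)).symm
        rw [e1]
        generalize ⁅k, y⁆ = c at c1 c2
        rw [commutatorElement_def, commutatorElement_def, _root_.mul_inv_rev]
        calc c * y * w * (y⁻¹ * c⁻¹) * w⁻¹ = c * (y * w * y⁻¹) * c⁻¹ * w⁻¹ := by group
          _ = (y * w * y⁻¹) * c * c⁻¹ * w⁻¹ := by
              rw [((c1.mul_right c2).mul_right c1.inv_right).eq]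
          _ = _ := by group
      rw [e])
  have hVX : VDL Xb := by
    refine vdl_of_cov h13 h8 hπ nl (Kt_le π .l) hφ hφs fun y hy hyz => ?_
    apply hPL
    intro m
    obtain ⟨w, hw, rfl⟩ := hψs m
    rw [hp y hy w hw]
    have : ⁅y, w⁆ = 1 := by
      rw [commutatorElement_eq_one_iff_mul_comm]
      exact ((mem_ZK.1 hyz).1 w (Kt_le π .l hw)).symm
    rw [this, hφE.toHomOn.map_one]
  have hVY : VDL Yb := by
    refine vdl_of_cov h13 h8 hπ nl (Kt_le π .l) hψ hψs fun y hy hyz => ?_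
    apply hPR
    intro m
    obtain ⟨w, hw, rfl⟩ := hφs m
    rw [hp w hw y hy]
    have : ⁅w, y⁆ = 1 := by
      rw [commutatorElement_eq_one_iff_mul_comm]
      exact (mem_ZK.1 hyz).1 w (Kt_le π .l hw)
    rw [this, hφE.toHomOn.map_one]
  have hfix : ∀ {M : Type} [AddCommGroup M] [Module RG M] {X : Subgroup G} {θ : G → M},
      HomOn π X θ → ∀ y ∈ X, y * a = a * y → act ga (θ y) = θ y := by
    intro M _ _ X θ hθ y hy hya
    have h := hθ.conj a y hy
    rw [hπa] at h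
    rw [← h]
    congr 1
    rw [← hya]
    group
  have habel : ∀ y ∈ Kt π .l, y * a = a * y → ∀ w ∈ Kt π .l, w * a = a * w → y * w = w * y := by
    intro y hy hya w hw hwa
    have h0 := h1 Xb Yb E hX15 hY15 hE15 hVX hVY hVE p hAdm (φ y) (ψ w) (hfix hφ y hy hya)
      (hfix hψ w hw hwa)
    rw [hp y hy w hw] at h0
    rw [← commutatorElement_eq_one_iff_mul_comm]
    exact hφE0 _ (hcomm y (Kt_le π .l hy) w hw) h0
  have hcall : ∀ k ∈ π.ker, k * a = a * k → ∀ y ∈ Kt π .l, y * a = a * y → k * y = y * k :=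
    fun k hk hka y hy hya => comm_all h9 hπ St ha hV hD habel hk hka hy hya
  -- the squares
  have nlz : (Kt π .l ⊓ ZK π).Normal := inferInstance
  obtain ⟨M, _, _, _, φM, hφM, hM15⟩ := h7 G π hπ (Kt π .l) (Kt π .l ⊓ ZK π) nl nlz inf_le_left
    (Kt_le π .l) (fun y hy => ⟨(Kt π .l).mul_mem hy hy, hEZ (hsq y hy)⟩) (by
      rw [Subgroup.commutator_le]
      intro y hy k hk
      have e : ⁅y, k⁆ = ⁅k, y⁆⁻¹ := (commutatorElement_inv k y).symm
      refine ⟨?_, ?_⟩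
      · have e2 : ⁅y, k⁆ = y * (k * y⁻¹ * k⁻¹) := by rw [commutatorElement_def]; group
        rw [e2]
        exact (Kt π .l).mul_mem hy (nl.conj_mem _ ((Kt π .l).inv_mem hy) k)
      · rw [e]
        exact (ZK π).inv_mem (hEZ (hcomm k hk y hy)))
  have hVM : VDL M := vdl_of_cov h13 h8 hπ nl (Kt_le π .l) hφM.toHomOn hφM.surj
    fun y hy hyz => (hφM.ker y hy).2 ⟨hy, hyz⟩
  classical
  let q : M → E := fun m =>
    if h : ∃ y, y ∈ Kt π .l ∧ y * a = a * y ∧ φM y = m then φE (h.choose * h.choose) else 0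
  have hq : ∀ y ∈ Kt π .l, y * a = a * y → q (φM y) = φE (y * y) := by
    intro y hy hya
    have hex : ∃ w, w ∈ Kt π .l ∧ w * a = a * w ∧ φM w = φM y := ⟨y, hy, hya, rfl⟩
    have e : q (φM y) = φE (hex.choose * hex.choose) := dif_pos hex
    rw [e]
    obtain ⟨hw, -, hwy⟩ := hex.choose_spec
    generalize hex.choose = w at hw hwy
    have hz : y * w⁻¹ ∈ Kt π .l ⊓ ZK π := by
      rw [← hφM.ker _ ((Kt π .l).mul_mem hy ((Kt π .l).inv_mem hw)),
        hφM.toHomOn.map_mul_inv hy hw, hwy, add_self]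
    have hzz := St.z2 _ hz.2
    have hc : Commute (y * w⁻¹) w := ((mem_ZK.1 hz.2).1 w (Kt_le π .l hw)).symm
    have e2 : y = (y * w⁻¹) * w := by group
    congr 1
    rw [e2, hc.symm.mul_mul_mul_comm, hzz, one_mul]
  have hlift : ∀ m, act ga m = m → ∃ y, y ∈ Kt π .l ∧ y * a = a * y ∧ φM y = m := by
    intro m hm
    obtain ⟨y, hy, rfl⟩ := hφM.surj m
    obtain ⟨n, hn, hna⟩ := cop_cyc h9 (N := Kt π .l ⊓ ZK π)
      (hπ.pg (inf_le_left.trans (Kt_le π .l))) (m := 3) (by decide) ha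
      (fun n hn => nlz.conj_mem n hn a) (x := y) (by
        have hca := nl.conj_mem y hy a
        rw [← hφM.ker _ ((Kt π .l).mul_mem ((Kt π .l).inv_mem hy) hca),
          hφM.mul _ ((Kt π .l).inv_mem hy) _ hca, hφM.toHomOn.map_inv hy, hφM.conj a y hy, hπa,
          hm, add_self])
    refine ⟨y * n, (Kt π .l).mul_mem hy hn.1, hna, ?_⟩
    rw [hφM.mul y hy n hn.1, (hφM.ker n hn.1).2 hn, add_zero]
  have hq0 := h2 M E hM15 hE15 hVM hVE q
    (by
      intro m m' hm hm'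
      obtain ⟨y, hy, hya, rfl⟩ := hlift m hm
      obtain ⟨w, hw, hwa, rfl⟩ := hlift m' hm'
      have hya' : Commute y a := hya
      have hc : Commute y w := habel y hy hya w hw hwa
      rw [← hφM.mul y hy w hw, hq y hy hya, hq w hw hwa,
        hq (y * w) ((Kt π .l).mul_mem hy hw) (hya'.mul_left hwa), hc.symm.mul_mul_mul_comm,
        hφE.mul _ (hsq y hy) _ (hsq w hw)])
    (by
      intro g m hg hm
      obtain ⟨y, hy, hya, rfl⟩ := hlift m hm
      obtain ⟨u, rfl, hu⟩ := lift_norm hπ ha hπa hg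
      rw [← hφM.conj u y hy, hq y hy hya, hq _ (nl.conj_mem y hy u) (comm_conj hu hya),
        ← hφE.conj u _ (hsq y hy)]
      congr 1
      group)
    (by
      intro h m hg ho hm
      obtain ⟨y, hy, hya, rfl⟩ := hlift m hm
      obtain ⟨u, rfl, hu⟩ := lift_norm hπ ha hπa hg
      have hu4 : π u ^ 4 = 1 := by
        have := pow_orderOf_eq_one (π u)
        rwa [ho] at this
      have hc1 : ∀ {w : G}, w ∈ Kt π .l → w * a = a * w →
          (u * w * u⁻¹ ∈ Kt π .l ∧ (u * w * u⁻¹) * a = a * (u * w * u⁻¹)) :=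
        fun hw hwa => ⟨nl.conj_mem _ hw u, comm_conj hu hwa⟩
      have p1 := hc1 hy hya
      have p2 := hc1 p1.1 p1.2
      have p3 := hc1 p2.1 p2.2
      have e2 : u ^ 2 * y * (u ^ 2)⁻¹ = u * (u * y * u⁻¹) * u⁻¹ := by
        rw [pow_two]; group
      have e3 : u ^ 3 * y * (u ^ 3)⁻¹ = u * (u * (u * y * u⁻¹) * u⁻¹) * u⁻¹ := by
        rw [pow_succ, pow_two]; group
      have en : nrmG u y = y * (u * y * u⁻¹) * (u * (u * y * u⁻¹) * u⁻¹) *
          (u * (u * (u * y * u⁻¹) * u⁻¹) * u⁻¹) := by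
        rw [nrmG, e2, e3]
      have hnl : nrmG u y ∈ Kt π .l := by
        rw [en]
        exact (Kt π .l).mul_mem ((Kt π .l).mul_mem ((Kt π .l).mul_mem hy p1.1) p2.1) p3.1
      have hna : nrmG u y * a = a * nrmG u y := by
        rw [en]
        have c0 : Commute y a := hya
        have c1 : Commute (u * y * u⁻¹) a := p1.2
        have c2 : Commute (u * (u * y * u⁻¹) * u⁻¹) a := p2.2
        have c3 : Commute (u * (u * (u * y * u⁻¹) * u⁻¹) * u⁻¹) a := p3.2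
        exact ((c0.mul_left c1).mul_left c2).mul_left c3
      have hnφ : φM (nrmG u y) = nrm4 (π u) (φM y) := by
        have q2 : π u ^ 2 = π u * π u := pow_two _
        have q3 : π u ^ 3 = π u * (π u * π u) := by rw [pow_succ', pow_two]
        rw [en, hφM.mul _ ((Kt π .l).mul_mem ((Kt π .l).mul_mem hy p1.1) p2.1) _ p3.1,
          hφM.mul _ ((Kt π .l).mul_mem hy p1.1) _ p2.1, hφM.mul _ hy _ p1.1,
          hφM.conj u _ p2.1, hφM.conj u _ p1.1, hφM.conj u _ hy, nrm4, q2, q3,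
          act_mul, act_mul, act_mul]
      rw [← hnφ, hq _ hnl hna]
      have hid := hπ.nrm_id (u := u) (Kt_le π .l hy) hu4
      have hu4k : u ^ 4 ∈ π.ker := by rw [MonoidHom.mem_ker, map_pow, hu4]
      have hu4a : u ^ 4 * a = a * u ^ 4 := by
        have h2 : (u * u) * a = a * (u * u) := by
          have key : u * (u * a * u⁻¹) * u⁻¹ = a := by
            rcases hu with hu | hu
            · rw [hu, hu]
            · rw [hu]
              have : u * a⁻¹ * u⁻¹ = (u * a * u⁻¹)⁻¹ := by group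
              rw [this, hu, inv_inv]
          calc (u * u) * a = (u * (u * a * u⁻¹) * u⁻¹) * (u * u) := by group
            _ = _ := by rw [key]
        have h3 : Commute (u * u) a := h2
        have e4 : u ^ 4 = (u * u) * (u * u) := by
          rw [show (4 : ℕ) = 2 + 2 from rfl, pow_add, pow_two]
        rw [e4]
        exact h3.mul_left h3
      have hcu := hcall _ hu4k hu4a _ hnl hna
      have hone : nrmG u y * nrmG u y = 1 := by
        rw [hcu] at hid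
        rw [mul_inv_cancel_right] at hid
        exact hid
      rw [hone, hφE.toHomOn.map_one])
  have hL : ∀ l ∈ Kt π .l, l * a = a * l → l * l = 1 := by
    intro l hl hla
    have h0 := hq0 (φM l) (hfix hφM.toHomOn l hl hla)
    rw [hq l hl hla] at h0
    exact hφE0 _ (hsq l hl) h0
  exact finish h9 hπ St ha hV hD hL hx hxa

end Pool.Agent.A8
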